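import Pool.Agent.Helper57.TW.Goals
import Pool.Agent.Helper88.CR.OM
import Pool.Agent.Helper37.PP.HM

/-! # Packet T74B-PV: the main factor -/

set_option autoImplicit false

open Finset Filter Topology

namespace Pool.Agent.Helper32.TW

open Pool.Agent.Helper88.PP (pr om)
open Pool.Agent.Helper57.TW

theorem pv_tele (w : ℕ) (hw : 2 ≤ w) (k : ℕ) :
    ∏ n ∈ Ioc w (w + k), (1 - 1 / ((n : ℝ) - 1) ^ 2)
      = ((w : ℝ) - 1) / w * (((w + k : ℕ) : ℝ) / (((w + k : ℕ) : ℝ) - 1)) := by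
  have h2 : (2 : ℝ) ≤ w := by exact_mod_cast hw
  have e1 : (w : ℝ) ≠ 0 := by linarith
  have e2 : (w : ℝ) - 1 ≠ 0 := by
    have : 0 < (w : ℝ) - 1 := by linarith
    exact this.ne'
  induction k with
  | zero =>
    simp only [add_zero, Ioc_self, prod_empty]
    field_simp
  | succ k ih =>
    rw [← add_assoc, Finset.prod_Ioc_succ_top (by omega), ih]
    push_cast
    have hk : (0 : ℝ) ≤ k := Nat.cast_nonneg k
    have e3 : (w : ℝ) + k ≠ 0 := by linarith
    have e4 : (w : ℝ) + k - 1 ≠ 0 := by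
      have : 0 < (w : ℝ) + k - 1 := by linarith
      exact this.ne'
    have e5 : (w : ℝ) + k + 1 - 1 = w + k := by ring
    rw [e5]
    field_simp
    ring

theorem pv_half (w z : ℕ) (hw : 2 ≤ w) (hwz : w ≤ z) :
    1 / 2 ≤ ∏ p ∈ pr w z, (1 - 1 / ((p : ℝ) - 1) ^ 2) := by
  have h2 : (2 : ℝ) ≤ w := by exact_mod_cast hw
  have hz : (2 : ℝ) ≤ z := by exact_mod_cast hw.trans hwz
  have h3 := pv_tele w hw (z - w)
  rw [Nat.add_sub_cancel' hwz] at h3
  have h4 : ∏ n ∈ Ioc w z, (1 - 1 / ((n : ℝ) - 1) ^ 2)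
      ≤ ∏ p ∈ pr w z, (1 - 1 / ((p : ℝ) - 1) ^ 2) := by
    unfold pr
    rw [← Finset.prod_filter_mul_prod_filter_not (Ioc w z) Nat.Prime]
    have h5 : ∀ n ∈ Ioc w z, 0 ≤ 1 - 1 / ((n : ℝ) - 1) ^ 2 ∧ 1 - 1 / ((n : ℝ) - 1) ^ 2 ≤ 1 := by
      intro n hn
      rw [mem_Ioc] at hn
      have h6 : (3 : ℝ) ≤ n := by exact_mod_cast (by omega : 3 ≤ n)
      have h7 : (1 : ℝ) ≤ ((n : ℝ) - 1) ^ 2 := by nlinarith
      constructor
      · rw [sub_nonneg, div_le_one (by linarith)]
        exact h7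
      · have : 0 ≤ 1 / ((n : ℝ) - 1) ^ 2 := by positivity
        linarith
    refine mul_le_of_le_one_right ?_ ?_
    · exact prod_nonneg fun n hn => (h5 n (mem_of_mem_filter n hn)).1
    · exact prod_le_one (fun n hn => (h5 n (mem_of_mem_filter n hn)).1)
        (fun n hn => (h5 n (mem_of_mem_filter n hn)).2)
  refine le_trans ?_ h4
  rw [h3]
  have e1 : 1 / 2 ≤ ((w : ℝ) - 1) / w := by
    rw [div_le_div_iff₀ (by norm_num) (by linarith)]
    linarith
  have e2 : 1 ≤ (z : ℝ) / ((z : ℝ) - 1) := by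
    rw [le_div_iff₀ (by linarith)]
    linarith
  calc (1 : ℝ) / 2 = 1 / 2 * 1 := by ring
    _ ≤ _ := mul_le_mul e1 e2 (by norm_num) (by linarith)

theorem pv_factor (w z : ℕ) (hw : 2 ≤ w) :
    ∏ p ∈ pr w z, (1 - 1 / ((p : ℝ) - 1))
      = om w z * ∏ p ∈ pr w z, (1 - 1 / ((p : ℝ) - 1) ^ 2) := by
  unfold om
  rw [← prod_mul_distrib]
  refine prod_congr rfl fun p hp => ?_
  unfold pr at hp
  rw [mem_filter, mem_Ioc] at hp
  have h6 : (3 : ℝ) ≤ p := by exact_mod_cast (by omega : 3 ≤ p)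
  have e1 : (p : ℝ) ≠ 0 := by linarith
  have e2 : (p : ℝ) - 1 ≠ 0 := by
    have : 0 < (p : ℝ) - 1 := by linarith
    exact this.ne'
  field_simp
  ring

theorem pv : StmtPV := by
  obtain ⟨c1, hc1, hOM⟩ := Pool.Agent.Helper88.CR.om_lower
  obtain ⟨C, hC, hMP⟩ := Pool.Agent.Helper37.PP.mp
  have hl2 : 0 < Real.log 2 := Real.log_pos (by norm_num)
  refine ⟨min (c1 / (2 * C)) (c1 * Real.log 2), by positivity, ?_⟩
  intro w y z hw hwz hy hyz
  have hw2 : (2 : ℝ) ≤ w := by exact_mod_cast hw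
  have hy2 : (2 : ℝ) ≤ y := by exact_mod_cast hy
  have hz2 : (2 : ℝ) ≤ z := by exact_mod_cast hw.trans hwz
  have hlw : 0 < Real.log w := Real.log_pos (by linarith)
  have hly : 0 < Real.log y := Real.log_pos (by linarith)
  have hlz : 0 < Real.log z := Real.log_pos (by linarith)
  have h1 := hOM w z hw hwz
  have h2 := hOM y z hy hyz
  have h3 := hMP y z hy hyz
  have h4 := pv_half w z hw hwz
  constructor
  · rw [pv_factor w z hw]
    have hom : 0 ≤ om w z := le_trans (by positivity) h1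
    calc min (c1 / (2 * C)) (c1 * Real.log 2) * (Real.log w / Real.log y) * om y z
        ≤ c1 / (2 * C) * (Real.log w / Real.log y) * (C * (Real.log y / Real.log z)) := by
          have e0 : 0 ≤ om y z := le_trans (by positivity) h2
          have e1 : 0 ≤ Real.log w / Real.log y := by positivity
          have e2 := min_le_left (c1 / (2 * C)) (c1 * Real.log 2)
          gcongr
      _ = c1 * (Real.log w / Real.log z) * (1 / 2) := by field_simp
      _ ≤ om w z * ∏ p ∈ pr w z, (1 - 1 / ((p : ℝ) - 1) ^ 2) :=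
          mul_le_mul h1 h4 (by norm_num) hom
  · refine le_trans ?_ h2
    calc min (c1 / (2 * C)) (c1 * Real.log 2) / Real.log z
        ≤ c1 * Real.log 2 / Real.log z := by
          gcongr
          exact min_le_right _ _
      _ ≤ c1 * Real.log y / Real.log z := by
          have := Real.log_le_log (by norm_num) hy2
          gcongr
      _ = c1 * (Real.log y / Real.log z) := by ring

end Pool.Agent.Helper32.TW
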