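import Pool.Agent.Helper57.TW.Goals
import Pool.Agent.Helper47.CR.LO

/-! # Packet T74B-FX: fixed characters -/

set_option autoImplicit false

open Finset Filter Topology

namespace Pool.Agent.Helper32.TW

open Pool.Agent.Helper88.CR
open Pool.Agent.Helper47.CR (Om mvt one_add_ofReal)
open Pool.Agent.Helper57.TW

theorem fx (hR0 : StmtR0) (hLC : StmtLC) (hCH : StmtCH) : StmtFX := by
  classical
  obtain ⟨K, hK, hCH⟩ := hCH
  have hK0 : 0 < K := by linarith
  have hK2 : 1 ≤ K ^ 2 := one_le_pow₀ hK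
  set c' : ℝ := 1 / (8 * K ^ 2) with hc'def
  have hc'0 : 0 < c' := by positivity
  have hc'8 : c' ≤ 1 / 8 := by
    rw [hc'def]
    apply one_div_le_one_div_of_le (by norm_num)
    linarith
  have hKc' : K ^ 2 * c' = 1 / 8 := by
    rw [hc'def]; field_simp
  obtain ⟨c, hc0, hcc', z1, hz1⟩ := hLC c' hc'0 (by linarith)
  refine ⟨c, hc0, by linarith, ?_⟩
  intro q _
  have hχ : ∀ χ : DirichletCharacter ℂ q, ∃ z0 : ℕ, ∀ z : ℕ, z0 ≤ z → χ ≠ 1 →
      1 / 2 ≤ ‖LL (ch z χ) 0 (1 + ((c / Real.log z : ℝ) : ℂ))‖ := by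
    intro χ
    by_cases h : χ = 1
    · exact ⟨0, fun z _ hne => absurd h hne⟩
    · obtain ⟨z0, hz0⟩ := hR0 q χ h c hc0
      exact ⟨z0, fun z hz _ => hz0 z hz⟩
  choose g hg using hχ
  refine ⟨max (max z1 (q ^ 8)) (max (2 ^ 32) (∑ χ : DirichletCharacter ℂ q, g χ)), ?_⟩
  intro z hz χ hne s hs1 hs2 hst
  have hzz1 : z1 ≤ z := le_trans (le_trans (le_max_left _ _) (le_max_left _ _)) hz
  have hqz : q ^ 8 ≤ z := le_trans (le_trans (le_max_right _ _) (le_max_left _ _)) hz
  have hz32 : 2 ^ 32 ≤ z := le_trans (le_trans (le_max_left _ _) (le_max_right _ _)) hz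
  have hgz : g χ ≤ z := by
    refine le_trans ?_ (le_trans (le_trans (le_max_right _ _) (le_max_right _ _)) hz)
    exact Finset.single_le_sum (f := fun χ => g χ) (fun _ _ => Nat.zero_le _)
      (Finset.mem_univ χ)
  by_cases hcase : χ ^ 2 ≠ 1 ∨ c' / Real.log z ≤ |s.im|
  · exact hz1 z q hzz1 hqz χ hne s hs1 hs2 hst hcase
  · rw [not_or, not_le] at hcase
    have him : |s.im| < c' / Real.log z := hcase.2
    have hz' : (2 : ℝ) ^ 32 ≤ z := by exact_mod_cast hz32
    have hz0 : (0 : ℝ) < z := lt_of_lt_of_le (by positivity) hz'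
    have hz16 : 16 ≤ z := le_trans (by norm_num) hz32
    set l := Real.log z with hl
    have hl1 : 1 ≤ l := by
      rw [hl, Real.le_log_iff_exp_le hz0]
      have := Real.exp_one_lt_d9
      linarith
    have hl0 : 0 < l := by linarith
    have hz116 : (1 : ℝ) ≤ (z : ℝ) ^ (1 / 16 : ℝ) :=
      Real.one_le_rpow (by linarith) (by norm_num)
    have hcl0 : 0 < c / l := by positivity
    have hcl1 : c / l ≤ c := div_le_self hc0.le hl1
    have hc'l1 : c' / l ≤ c' := div_le_self hc'0.le hl1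
    have hsΩ : s ∈ Om z := by
      refine ⟨hs1, ?_, ?_⟩
      · linarith
      · linarith
    have hσ : (1 + ((c / l : ℝ) : ℂ)) = ⟨1 + c / l, 0⟩ := one_add_ofReal _
    have htΩ : (1 + ((c / l : ℝ) : ℂ)) ∈ Om z := by
      rw [hσ]
      refine ⟨?_, ?_, ?_⟩
      · change 1 < 1 + c / l
        linarith
      · change 1 + c / l ≤ 2
        linarith
      · change |(0 : ℝ)| ≤ _
        rw [abs_zero]; linarith
    have hL1 : ∀ s ∈ Om z, ‖LL (ch z χ) 1 s‖ ≤ K ^ 2 * l := by
      intro s hs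
      have h := (hCH z q hz16 hqz s 1 hs.1 hs.2.1 hs.2.2).1 χ hne
      rw [if_neg one_ne_zero, sub_zero, pow_one] at h
      calc _ ≤ _ := h
        _ = K ^ 2 * l := by rw [hl]; ring
    have h6 := mvt z χ hL1 hsΩ htΩ
    have h5 := hg χ z hgz hne
    have h7 : ‖s - (1 + ((c / l : ℝ) : ℂ))‖ ≤ c' / l + c' / l := by
      refine (Complex.norm_le_abs_re_add_abs_im _).trans ?_
      have e1 : (s - (1 + ((c / l : ℝ) : ℂ))).re = s.re - (1 + c / l) := by
        rw [hσ, Complex.sub_re]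
      have e2 : (s - (1 + ((c / l : ℝ) : ℂ))).im = s.im := by
        rw [hσ, Complex.sub_im]
        change s.im - 0 = s.im
        ring
      rw [e1, e2]
      have e4 : c / l ≤ c' / l := by gcongr
      have e3 : |s.re - (1 + c / l)| ≤ c' / l := by
        rw [abs_le]
        constructor <;> linarith
      linarith
    have h8 : K ^ 2 * l * ‖s - (1 + ((c / l : ℝ) : ℂ))‖ ≤ 1 / 4 := by
      calc _ ≤ K ^ 2 * l * (c' / l + c' / l) := by gcongr
        _ = 2 * (K ^ 2 * c') := by field_simp; norm_num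
        _ = 1 / 4 := by rw [hKc']; norm_num
    linarith

end Pool.Agent.Helper32.TW
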